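import Pool.Agent.Work.MP_d41d5f_lc.ED.Sep

/-!
Maximum edge-disjoint terminal paths in planar graphs with a fixed number `k ≥ 2` of pairs:
NP-hardness, also of approximation within an additive error `OPT ^ (1 - ε)`.
-/

set_option autoImplicit false

namespace Pool.Agent.Results.MP_d41d5f_lc.PlanarEDPGap

open Pool.Agent.Work.PolyTime Pool.Agent.Work.MP_d41d5f_lc

/-- For every fixed `k ≥ 2`: (a) the decision problem `N ≤ opt I` for the instances `I` of planar
max-EDP with `k` terminal pairs is NP-hard; (b) for every `ε > 0` every language that separates the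
instances `(I, N)` with `N ≤ opt I` from those with `opt I ≤ N - N ^ (1 - ε)` is NP-hard. -/
theorem result (k : ℕ) (hk : 2 ≤ k) :
    NPHard (problem (fun x : Inst × ℕ => WF k x.1) (fun x => x.2 ≤ opt x.1)) ∧
    ∀ ε : ℝ, 0 < ε → ∀ S : Set (List Bool), Separates k ε S → NPHard S :=
  ⟨edp_nphard k hk, fun ε hε S hS => edp_sep k hk ε hε S hS⟩

end Pool.Agent.Results.MP_d41d5f_lc.PlanarEDPGap
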